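import Mathlib
import Pool.Agent.TH465.HP.Loc
import Pool.Agent.H499R2.HL.B

/-! The total stopping time of the Collatz function, in terms of the shortcut function. -/

set_option autoImplicit false

namespace Pool.Agent.TH465.LN
open Finset Filter Topology
open Pool.Agent.H499R2.HL (H)
open Pool.Agent.H499R2.LT (odn Dn_iff Dn_sum)
open Pool.Agent.H499R2.ND (Tn Dn Phi Phi_continuous phi_cdf)

/-- the Collatz function -/
def C (n : ℕ) : ℕ := if n % 2 = 0 then n / 2 else 3 * n + 1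

/-- `l` is the total stopping time -/
def Ts (n l : ℕ) : Prop := C^[l] n = 1 ∧ ∀ j < l, C^[j] n ≠ 1

lemma odn_succ (k n : ℕ) : odn (k + 1) n = n % 2 + odn k (Tn n) := by
  unfold odn
  rw [Finset.range_eq_Ico, Finset.range_eq_Ico, card_filter, card_filter, Finset.sum_eq_sum_Ico_succ_bot (by omega)]
  rw [Finset.sum_Ico_eq_sum_range, ← Finset.range_eq_Ico]
  congr 1
  · rcases Nat.mod_two_eq_zero_or_one n with h | h
    · rw [if_neg (show ¬ Tn^[0] n % 2 = 1 from fun h' => by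
        rw [Function.iterate_zero, id_eq] at h'; omega)]; omega
    · rw [if_pos (show Tn^[0] n % 2 = 1 from h)]; omega
  · simp only [Nat.add_sub_cancel]
    apply sum_congr rfl
    intro i _
    have e : 0 + 1 + i = i + 1 := by omega
    rw [e, Function.iterate_succ_apply]

lemma H_succ {k n : ℕ} : H (k + 1) n ↔ n ≠ 1 ∧ H k (Tn n) := by
  unfold H
  constructor
  · rintro ⟨h1, h2⟩
    refine ⟨h2 0 (by omega), by rwa [Function.iterate_succ_apply] at h1, fun i hi => ?_⟩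
    have := h2 (i + 1) (by omega)
    rwa [Function.iterate_succ_apply] at this
  · rintro ⟨h0, h1, h2⟩
    refine ⟨by rwa [Function.iterate_succ_apply], fun i hi => ?_⟩
    rcases i with _ | i
    · exact h0
    · rw [Function.iterate_succ_apply]
      exact h2 i (by omega)

lemma Ts_succ {l n : ℕ} : Ts n (l + 1) ↔ n ≠ 1 ∧ Ts (C n) l := by
  unfold Ts
  constructor
  · rintro ⟨h1, h2⟩
    refine ⟨h2 0 (by omega), by rwa [Function.iterate_succ_apply] at h1, fun i hi => ?_⟩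
    have := h2 (i + 1) (by omega)
    rwa [Function.iterate_succ_apply] at this
  · rintro ⟨h0, h1, h2⟩
    refine ⟨by rwa [Function.iterate_succ_apply], fun i hi => ?_⟩
    rcases i with _ | i
    · exact h0
    · rw [Function.iterate_succ_apply]
      exact h2 i (by omega)

lemma Ts_of_H {k : ℕ} : ∀ {n : ℕ}, H k n → Ts n (k + odn k n) := by
  induction k with
  | zero =>
    intro n h
    have e : odn 0 n = 0 := by unfold odn; simp
    rw [e]
    exact ⟨h.1, fun j hj => absurd hj (by omega)⟩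
  | succ k ih =>
    intro n h
    obtain ⟨h0, h1⟩ := H_succ.1 h
    have h2 := ih h1
    rw [odn_succ]
    rcases Nat.mod_two_eq_zero_or_one n with hp | hp
    · have e : k + 1 + (n % 2 + odn k (Tn n)) = (k + odn k (Tn n)) + 1 := by omega
      have e2 : C n = Tn n := by unfold C Pool.Agent.H499R2.ND.Tn; rw [if_pos hp, if_pos hp]
      rw [e, Ts_succ, e2]
      exact ⟨h0, h2⟩
    · have e : k + 1 + (n % 2 + odn k (Tn n)) = ((k + odn k (Tn n)) + 1) + 1 := by omega
      have e1 : C n = 3 * n + 1 := by unfold C; rw [if_neg (by omega)]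
      have e2 : C (3 * n + 1) = Tn n := by
        unfold C Pool.Agent.H499R2.ND.Tn; rw [if_pos (by omega), if_neg (by omega)]
      rw [e, Ts_succ, e1, Ts_succ, e2]
      exact ⟨h0, by omega, h2⟩

lemma H_of_Ts : ∀ (l n : ℕ), Ts n l → ∃ k, H k n ∧ l = k + odn k n := by
  intro l
  induction l using Nat.strong_induction_on with
  | _ l ih =>
    intro n h
    rcases l with _ | l
    · have hn : n = 1 := h.1
      have e : odn 0 n = 0 := by unfold odn; simp
      exact ⟨0, ⟨hn, fun i hi => absurd hi (by omega)⟩, by rw [e]⟩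
    · obtain ⟨h0, h1⟩ := Ts_succ.1 h
      rcases Nat.mod_two_eq_zero_or_one n with hp | hp
      · have e2 : C n = Tn n := by unfold C Pool.Agent.H499R2.ND.Tn; rw [if_pos hp, if_pos hp]
        rw [e2] at h1
        obtain ⟨k, hk, hl⟩ := ih l (by omega) (Tn n) h1
        refine ⟨k + 1, H_succ.2 ⟨h0, hk⟩, ?_⟩
        rw [odn_succ]; omega
      · have e1 : C n = 3 * n + 1 := by unfold C; rw [if_neg (by omega)]
        have e2 : C (3 * n + 1) = Tn n := by
          unfold C Pool.Agent.H499R2.ND.Tn; rw [if_pos (by omega), if_neg (by omega)]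
        rw [e1] at h1
        rcases l with _ | l
        · exfalso
          have : 3 * n + 1 = 1 := h1.1
          omega
        · obtain ⟨_, h2⟩ := Ts_succ.1 h1
          rw [e2] at h2
          obtain ⟨k, hk, hl⟩ := ih l (by omega) (Tn n) h2
          refine ⟨k + 1, H_succ.2 ⟨h0, hk⟩, ?_⟩
          rw [odn_succ]; omega

theorem Ts_iff (n l : ℕ) : Ts n l ↔ ∃ k, H k n ∧ l = k + odn k n :=
  ⟨H_of_Ts l n, fun ⟨_, hk, hl⟩ => hl ▸ Ts_of_H hk⟩

theorem Ts_unique {n l l' : ℕ} (h : Ts n l) (h' : Ts n l') : l = l' := by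
  rcases lt_trichotomy l l' with h1 | h1 | h1
  · exact absurd h.1 (h'.2 l h1)
  · exact h1
  · exact absurd h'.1 (h.2 l' h1)

theorem CC_eq : C = Pool.Agent.H499R2.ND.CC := by
  funext n
  rfl

/-- the threshold -/
noncomputable def bl (x : ℝ) (n : ℕ) : ℝ := 3 / Real.log (4 / 3) * Real.log n
  + x * (Real.log 6 * Real.sqrt (2 * Real.log n / Real.log (4 / 3) ^ 3))

/-- the one dimensional law -/
theorem lawL : ∃ δ : ℝ, 0 < δ ∧ δ ≤ 1 ∧ (δ = 1 ↔ ∀ n : ℕ, 1 ≤ n → ∃ k : ℕ, C^[k] n = 1) ∧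
    Dn (fun n => ∃ k : ℕ, C^[k] n = 1) δ ∧
    ∀ (m : ℕ) (a : ℤ), 1 ≤ m → ∀ x : ℝ, Dn (fun n => ∃ l : ℕ, (l : ℝ) ≤ bl x n ∧ Ts n l ∧ (l : ℤ) ≡ a [ZMOD m])
      (δ * Phi x / m) := by
  obtain ⟨δ, h0, h1, h2, h3, h4⟩ := Pool.Agent.H499R2.LT.law_oneC
  refine ⟨δ, h0, h1, h2, h3, fun m a hm x => ?_⟩
  have hm0 : (0 : ℝ) < m := by exact_mod_cast hm
  have h5 := Dn_sum (range m) (fun b n => ∃ l : ℕ, (l : ℝ) ≤ bl x n ∧ Ts n l ∧
      (l : ℤ) ≡ a [ZMOD m] ∧ (Pool.Agent.H499R2.LT.ocn l n : ℤ) ≡ (b : ℤ) [ZMOD m])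
      (fun _ => δ * ProbabilityTheory.cdf (ProbabilityTheory.gaussianReal 0 1) x / m ^ 2)
      (fun b _ => h4 m a b hm x) (by
    rintro n b hb b' hb' ⟨k, -, hk, -, hk2⟩ ⟨k', -, hk', -, hk2'⟩
    have e : k = k' := Ts_unique hk hk'
    subst e
    have h6 : (b : ℤ) ≡ (b' : ℤ) [ZMOD m] := hk2.symm.trans hk2'
    rw [mem_range] at hb hb'
    unfold Int.ModEq at h6
    rw [Int.emod_eq_of_lt (by omega) (by omega), Int.emod_eq_of_lt (by omega) (by omega)] at h6
    exact_mod_cast h6)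
  rw [sum_const, card_range, nsmul_eq_mul, ← phi_cdf] at h5
  have e : (m : ℝ) * (δ * Phi x / m ^ 2) = δ * Phi x / m := by field_simp
  rw [e] at h5
  refine Dn_iff (fun n _ => ?_) h5
  constructor
  · rintro ⟨b, -, k, hk1, hk2, hk3, -⟩
    exact ⟨k, hk1, hk2, hk3⟩
  · rintro ⟨k, hk1, hk2, hk3⟩
    refine ⟨Pool.Agent.H499R2.LT.ocn k n % m, mem_range.2 (Nat.mod_lt _ (by omega)), k, hk1, hk2, hk3, ?_⟩
    unfold Int.ModEq
    push_cast
    rw [Int.emod_emod_of_dvd _ dvd_rfl]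

end Pool.Agent.TH465.LN
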