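import Mathlib
import Pool.Agent.TH465.HP.Main2
import Pool.Agent.TH465.PP.Law
import Pool.Agent.TH465.PP.TrG
import Pool.Agent.TH465.LN.Core

/-! The total stopping time of the Collatz function along sums with primes. -/

set_option autoImplicit false

namespace Pool.Agent.TH465.LN
open Finset Filter Topology Pool.Agent.TH204.CP Pool.Agent.TH465.HP Pool.Agent.TH465.PP
open Pool.Agent.H499R2.HL (H)
open Pool.Agent.H499R2.LT (odn)
open Pool.Agent.H499R2.ND (Tn Dn Phi Phi_continuous phi_cdf)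

open Classical in
theorem avg_coreG {val : ℕ → ℕ → ℝ} (hv : ∀ k o, 0 ≤ val k o) {α : Type*} (F : Finset α) (v : α → ℕ)
    (hF : ∀ z ∈ F, 0 < v z) {f : ℝ → ℕ → ℝ} (hf : IsTrG val f) {c κ Λ L L' : ℝ} (hκ : 0 < κ) (hκc : κ < c)
    (hΛ : c < Λ) (hL : 0 ≤ L) (hLL : L ≤ L') (hLL' : L' ≤ L + 1) :
    ∑ z ∈ F, f (Λ * L) (v z) ≤ Λ * L * ((F.card : ℝ) -
      (F.filter (fun z => Dat (fun k o => val k o ≤ (c + κ) * L') ((v z : ℕ) : ℤ))).card) +
      (c + κ) * (L + 1) * (F.filter (fun z => Dat (fun k o => val k o ≤ (c + κ) * L') ((v z : ℕ) : ℤ))).card +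
      0 * (Λ * L) ∧
    Λ * L * ((F.card : ℝ) - (F.filter (fun z => Dat (fun _ _ => True) ((v z : ℕ) : ℤ))).card) +
      (c - κ) * L * (F.filter (fun z => Dat (fun k o => (c - κ) * L' < val k o) ((v z : ℕ) : ℤ))).card -
      0 * (Λ * L + (c - κ) * L) ≤ ∑ z ∈ F, f (Λ * L) (v z) := by
  have hΛ0 : 0 < Λ := by linarith
  have ht : 0 ≤ Λ * L := by positivity
  have hck : 0 < c - κ := by linarith
  have hb := trunc_bounds F F ∅ (Subset.refl _) (fun z hz _ => hz) (fun z => f (Λ * L) (v z))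
    (fun z => Dat (fun _ _ => True) ((v z : ℕ) : ℤ))
    (fun z => Dat (fun k o => (c - κ) * L' < val k o) ((v z : ℕ) : ℤ))
    (fun z => Dat (fun k o => val k o ≤ (c + κ) * L') ((v z : ℕ) : ℤ)) ht
    (a1 := (c - κ) * L) (a2 := (c + κ) * (L + 1)) (by positivity)
    (mul_nonneg (by linarith) (by linarith)) (fun z _ => (hf.nn hv ht _).1) (fun z _ => (hf.nn hv ht _).2) ?_ ?_ ?_ ?_
  · obtain ⟨b1, b2⟩ := hb
    rw [card_empty, Nat.cast_zero] at b1 b2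
    exact ⟨b1, b2⟩
  · intro z hz _ hn
    apply hf.2
    rintro ⟨k, hk⟩
    refine hn ⟨by exact_mod_cast hF z hz, k, ?_, trivial⟩
    rw [Int.toNat_natCast]; exact hk
  · rintro z ⟨hz, k, hk, _⟩
    exact ⟨hz, k, hk, trivial⟩
  · rintro z hz _ ⟨_, k, hk, ho⟩
    rw [Int.toNat_natCast] at hk ho
    rw [hf.1 _ _ k hk]
    refine le_min ?_ ?_
    · have := mul_le_mul_of_nonneg_left hLL hck.le
      linarith
    · exact mul_le_mul_of_nonneg_right (by linarith) hL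
  · rintro z hz _ ⟨_, k, hk, ho⟩
    rw [Int.toNat_natCast] at hk ho
    rw [hf.1 _ _ k hk]
    refine (min_le_left _ _).trans (ho.trans ?_)
    exact mul_le_mul_of_nonneg_left hLL' (by linarith)

section avg

variable {val : ℕ → ℕ → ℝ} {c c' δ Λ : ℝ}

/-- AVERAGE, ternary -/
theorem avg_ternG (hv : ∀ k o, 0 ≤ val k o) (hc : 0 < c) (hc' : 0 < c') (hδ0 : 0 ≤ δ) (hδ1 : δ ≤ 1)
    (hfin : Dn (fun n => ∃ k, H k n) δ) (hlaw : LawG val c c' δ) {f : ℝ → ℕ → ℝ} (hf : IsTrG val f)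
    (hΛ : c < Λ) (ε : ℝ) (hε : 0 < ε) :
    ∀ᶠ n : ℕ in atTop, |(∑ z ∈ FP n, f (Λ * Real.log n) (n - z.1 - z.2)) * Real.log n -
      (δ * c + (1 - δ) * Λ) * (n ^ 2 / 2)| ≤ ε * n ^ 2 := by
  classical
  obtain ⟨κ, hκ0, hκc, hκ⟩ := avg_bound hc hΛ hδ0 hδ1 hε
  have a0 := App_fin hfin
  have a1 := App_lowG hc.le hc' hfin hlaw (show c - κ < c by linarith)
  have a2 := App_uppG hc.le hc' hfin hlaw (show c < c + κ by linarith)
  have hκ2 : 0 < κ / 2 := by positivity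
  filter_upwards [App_true.tern (κ / 2) hκ2, a0.tern (κ / 2) hκ2, a1.tern (κ / 2) hκ2, a2.tern (κ / 2) hκ2,
    tlog.eventually_ge_atTop (1 / κ), tlog.eventually_ge_atTop 1, eventually_ge_atTop 1]
    with n g g0 g1 g2 h2 h3 h4
  have hn1 : (1 : ℝ) ≤ n := by exact_mod_cast h4
  obtain ⟨l1, l2⟩ := log_two_mul h4
  obtain ⟨b1, b2⟩ := avg_coreG hv (FP n) (fun z => n - z.1 - z.2) (fun z hz => by
    rw [FP, mem_filter] at hz; omega) hf hκ0 hκc hΛ (by linarith) l1 l2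
  rw [← FP_true] at g
  rw [TT3_card] at g0 g1 g2
  set L := Real.log (n : ℝ) with hL
  set S := ∑ z ∈ FP n, f (Λ * L) (n - z.1 - z.2) with hS
  set A : ℝ := (n : ℝ) ^ 2 / 2 with hA
  have hA0 : 0 ≤ A := by positivity
  have key := hκ L (L ^ 2) A ((FP n).card : ℝ) _ _ _ S 0 h2 (by positivity) hA0
    ?_ ?_ ?_ ?_ ?_ b1 b2
  · have e1 : S * L ^ 2 - (δ * c + (1 - δ) * Λ) * A * L = (S * L - (δ * c + (1 - δ) * Λ) * A) * L := by ring
    rw [e1, abs_mul, abs_of_pos (show 0 < L by linarith)] at key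
    have key2 := le_of_mul_le_mul_right key (show 0 < L by linarith)
    refine key2.trans ?_
    rw [hA]
    have : 0 ≤ ε * (n : ℝ) ^ 2 := by positivity
    linarith
  · have := g
    rw [one_mul] at this
    refine this.trans (le_of_eq ?_)
    rw [hA]; ring
  · have e2 : δ * (n : ℝ) ^ 2 / 2 = δ * A := by rw [hA]; ring
    rw [e2] at g0
    refine g0.trans (le_of_eq ?_)
    rw [hA]; ring
  · have e2 : δ * (n : ℝ) ^ 2 / 2 = δ * A := by rw [hA]; ring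
    rw [e2] at g1
    refine g1.trans (le_of_eq ?_)
    rw [hA]; ring
  · have e2 : δ * (n : ℝ) ^ 2 / 2 = δ * A := by rw [hA]; ring
    rw [e2] at g2
    refine g2.trans (le_of_eq ?_)
    rw [hA]; ring
  · rw [zero_mul]; positivity

/-- AVERAGE, shifts -/
theorem avg_diffG (hv : ∀ k o, 0 ≤ val k o) (hc : 0 < c) (hc' : 0 < c') (hδ0 : 0 ≤ δ) (hδ1 : δ ≤ 1)
    (hfin : Dn (fun n => ∃ k, H k n) δ) (hlaw : LawG val c c' δ) {f : ℝ → ℕ → ℝ} (hf : IsTrG val f)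
    (hΛ : c < Λ) (C : ℕ) (ε : ℝ) (hε : 0 < ε) :
    ∀ᶠ N : ℕ in atTop, ∃ X : Finset ℕ, (X.card : ℝ) * Real.log N ^ C ≤ N ∧ ∀ k ∈ Icc 1 N, k ∉ X →
      |∑ p ∈ FS k N, f (Λ * Real.log N) (p - k) - (δ * c + (1 - δ) * Λ) * N| ≤ ε * N := by
  classical
  obtain ⟨κ, hκ0, hκc, hκ⟩ := avg_bound hc hΛ hδ0 hδ1 hε
  have a0 := App_fin hfin
  have a1 := App_lowG hc.le hc' hfin hlaw (show c - κ < c by linarith)
  have a2 := App_uppG hc.le hc' hfin hlaw (show c < c + κ by linarith)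
  filter_upwards [App_true.diff (C + 1 + 1) κ hκ0, a0.diff (C + 1 + 1) κ hκ0, a1.diff (C + 1 + 1) κ hκ0,
    a2.diff (C + 1 + 1) κ hκ0,
    tlog.eventually_ge_atTop (1 / κ), tlog.eventually_ge_atTop 2, eventually_ge_atTop 1]
    with N g g0 g1 g2 h2 h3 h4
  obtain ⟨X0, _, x0, y0⟩ := g
  obtain ⟨X1, _, x1, y1⟩ := g0
  obtain ⟨X2, _, x2, y2⟩ := g1
  obtain ⟨X3, _, x3, y3⟩ := g2
  refine ⟨(X0 ∪ X1) ∪ (X2 ∪ X3), union4 x0 x1 x2 x3 h3, fun k hk hkX => ?_⟩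
  rw [mem_union, mem_union, mem_union, not_or, not_or, not_or] at hkX
  obtain ⟨⟨n0, n1⟩, n2, n3⟩ := hkX
  have z0 := y0 k hk n0
  have z1 := y1 k hk n1
  have z2 := y2 k hk n2
  have z3 := y3 k hk n3
  rw [mem_Icc] at hk
  have hn1 : (1 : ℝ) ≤ N := by exact_mod_cast h4
  obtain ⟨b1, b2⟩ := avg_coreG hv (FS k N) (fun p => p - k) (fun p hp => by
    rw [FS, mem_filter, mem_Ioc] at hp; omega) hf hκ0 hκc hΛ
    (L := Real.log N) (L' := Real.log N) (by linarith) le_rfl (by linarith)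
  rw [← FS_true] at z0
  rw [QD_card] at z1 z2 z3
  set L := Real.log (N : ℝ) with hL
  set S := ∑ p ∈ FS k N, f (Λ * L) (p - k) with hS
  have key := hκ L L (N : ℝ) ((FS k N).card : ℝ) _ _ _ S 0 h2 (by linarith)
    (by linarith) ?_ z1 z2 z3 ?_ b1 b2
  · have e1 : S * L - (δ * c + (1 - δ) * Λ) * N * L = (S - (δ * c + (1 - δ) * Λ) * N) * L := by ring
    rw [e1, abs_mul, abs_of_pos (show 0 < L by linarith)] at key
    exact le_of_mul_le_mul_right key (show 0 < L by linarith)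
  · have := z0
    rw [one_mul] at this
    exact this
  · rw [zero_mul]; positivity

/-- AVERAGE, sums -/
theorem avg_sumG (hv : ∀ k o, 0 ≤ val k o) (hc : 0 < c) (hc' : 0 < c') (hδ0 : 0 ≤ δ) (hδ1 : δ ≤ 1)
    (hfin : Dn (fun n => ∃ k, H k n) δ) (hlaw : LawG val c c' δ) {f : ℝ → ℕ → ℝ} (hf : IsTrG val f)
    (hΛ : c < Λ) (C : ℕ) (ε : ℝ) (hε : 0 < ε) :
    ∀ᶠ N : ℕ in atTop, ∃ X : Finset ℕ, (X.card : ℝ) * Real.log N ^ C ≤ N ∧ ∀ n ∈ Ioc N (2 * N), n ∉ X →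
      |∑ p ∈ FO n, f (Λ * Real.log n) (n - p) - (δ * c + (1 - δ) * Λ) * n| ≤ ε * n := by
  classical
  obtain ⟨κ, hκ0, hκc, hκ⟩ := avg_bound hc hΛ hδ0 hδ1 hε
  have a0 := App_fin hfin
  have a1 := App_lowG hc.le hc' hfin hlaw (show c - κ < c by linarith)
  have a2 := App_uppG hc.le hc' hfin hlaw (show c < c + κ by linarith)
  obtain ⟨N2, hN2⟩ := eventually_atTop.1 (tlog.eventually_ge_atTop (1 / κ))
  filter_upwards [App_true.sum (C + 1 + 1) κ hκ0, a0.sum (C + 1 + 1) κ hκ0, a1.sum (C + 1 + 1) κ hκ0,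
    a2.sum (C + 1 + 1) κ hκ0, eventually_ge_atTop N2,
    tlog.eventually_ge_atTop 2, eventually_ge_atTop 1]
    with N g g0 g1 g2 h2 h3 h4
  obtain ⟨X0, _, x0, y0⟩ := g
  obtain ⟨X1, _, x1, y1⟩ := g0
  obtain ⟨X2, _, x2, y2⟩ := g1
  obtain ⟨X3, _, x3, y3⟩ := g2
  refine ⟨(X0 ∪ X1) ∪ (X2 ∪ X3), union4 x0 x1 x2 x3 h3, fun n hn hkX => ?_⟩
  rw [mem_union, mem_union, mem_union, not_or, not_or, not_or] at hkX
  obtain ⟨⟨n0, n1⟩, n2, n3⟩ := hkX
  have z0 := y0 n hn n0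
  have z1 := y1 n hn n1
  have z2 := y2 n hn n2
  have z3 := y3 n hn n3
  rw [mem_Ioc] at hn
  have h2' := hN2 n (by omega)
  have hn1 : (1 : ℝ) ≤ n := by exact_mod_cast (by omega : 1 ≤ n)
  have hNr : (1 : ℝ) ≤ N := by exact_mod_cast h4
  obtain ⟨l1, l2⟩ := log_two_mul h4
  have hNn : Real.log (N : ℝ) ≤ Real.log n := Real.log_le_log (by linarith) (by exact_mod_cast hn.1.le)
  have hn2N : Real.log (n : ℝ) ≤ Real.log ((2 * N : ℕ) : ℝ) := Real.log_le_log (by linarith) (by exact_mod_cast hn.2)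
  obtain ⟨b1, b2⟩ := avg_coreG hv (FO n) (fun p => n - p) (fun p hp => by
    rw [FO, mem_filter, mem_range] at hp; omega) hf hκ0 hκc hΛ
    (L := Real.log n) (L' := Real.log ((2 * N : ℕ) : ℝ)) (by linarith) hn2N (by linarith)
  rw [← FO_true] at z0
  rw [QS_card] at z1 z2 z3
  set L := Real.log (n : ℝ) with hL
  set S := ∑ p ∈ FO n, f (Λ * L) (n - p) with hS
  have hL2 : 2 ≤ L := by linarith
  have key := hκ L L (n : ℝ) ((FO n).card : ℝ) _ _ _ S 0 h2' (by linarith)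
    (by linarith) ?_ z1 z2 z3 ?_ b1 b2
  · have e1 : S * L - (δ * c + (1 - δ) * Λ) * n * L = (S - (δ * c + (1 - δ) * Λ) * n) * L := by ring
    rw [e1, abs_mul, abs_of_pos (show 0 < L by linarith)] at key
    exact le_of_mul_le_mul_right key (show 0 < L by linarith)
  · have := z0
    rw [one_mul] at this
    exact this
  · rw [zero_mul]; positivity

end avg

/-! ### The function `l` -/

/-- the coefficients of the normal law -/
noncomputable def A1 : ℝ := 3 / Real.log (4 / 3)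

/-- the coefficient of the standard deviation -/
noncomputable def c1 : ℝ := Real.log 6 * √ (2 / Real.log (4 / 3) ^ 3)

lemma l43 : 0 < Real.log (4 / 3) := Real.log_pos (by norm_num)

lemma A1_pos : 0 < A1 := div_pos (by norm_num) l43

lemma c1_pos : 0 < c1 := by
  have := l43
  have : 0 < Real.log 6 := Real.log_pos (by norm_num)
  unfold c1
  positivity

lemma bl_th (x : ℝ) (n : ℕ) : bl x n = th A1 c1 x n := by
  unfold bl th A1 c1
  have e : 2 * Real.log n / Real.log (4 / 3) ^ 3 = 2 / Real.log (4 / 3) ^ 3 * Real.log n := by ring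
  have := l43
  rw [e, Real.sqrt_mul (by positivity)]
  ring

/-- the total stopping time -/
def valL (k o : ℕ) : ℝ := (k : ℝ) + o

lemma valL_nn (k o : ℕ) : 0 ≤ valL k o := by unfold valL; positivity

/-- its residue class -/
def clsL (m : ℕ) (r : ℤ) (k o : ℕ) : Prop := ((k + o : ℕ) : ℤ) ≡ r [ZMOD m]

lemma lvL_iff (m : ℕ) (r : ℤ) (x : ℝ) (n : ℕ) : Lv valL (clsL m r) (th A1 c1 x) n ↔
    ∃ l : ℕ, (l : ℝ) ≤ bl x n ∧ Ts n l ∧ (l : ℤ) ≡ r [ZMOD m] := by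
  unfold Lv
  rw [bl_th]
  constructor
  · rintro ⟨k, hk, h1, h2⟩
    refine ⟨k + odn k n, ?_, Ts_of_H hk, h2⟩
    unfold valL at h1
    push_cast; exact h1
  · rintro ⟨l, h1, h2, h3⟩
    obtain ⟨k, hk, rfl⟩ := (Ts_iff n l).1 h2
    refine ⟨k, hk, ?_, h3⟩
    unfold valL
    push_cast at h1; exact h1

/-- the hypotheses on the density -/
structure DenL (δ : ℝ) : Prop where
  pos : 0 < δ
  le_one : δ ≤ 1
  fin : Dn (fun n => ∃ k, H k n) δ
  law : ∀ (m : ℕ) (r : ℤ), 1 ≤ m → ∀ x : ℝ, Dn (Lv valL (clsL m r) (th A1 c1 x)) (δ * Phi x / m)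

theorem app_levelL {δ : ℝ} (h : DenL δ) {m : ℕ} (hm : 1 ≤ m) (r : ℤ) (x : ℝ) :
    App (fun _ => LvZ valL (clsL m r) (th A1 c1 x)) (δ * Phi x / m) :=
  App_lawG A1_pos.le c1_pos (d := fun x => δ * Phi x / m) ((Phi_continuous.const_mul δ).div_const _)
    (fun y => h.law m r hm y) x

theorem DenL.lawG {δ : ℝ} (h : DenL δ) : LawG valL A1 c1 δ := by
  intro x
  have h1 := h.law 1 0 le_rfl x
  simp only [Nat.cast_one, div_one] at h1
  refine Pool.Agent.H499R2.LT.Dn_iff (fun n _ => ?_) h1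
  unfold Lv
  refine exists_congr fun k => and_congr_right fun _ => and_congr_right fun _ => ?_
  unfold clsL
  rw [Int.ModEq]
  simp

theorem denL : ∃ δ : ℝ, DenL δ ∧ (δ = 1 ↔ ∀ n : ℕ, 1 ≤ n → ∃ k : ℕ, C^[k] n = 1) ∧
    Dn (fun n => ∃ k : ℕ, C^[k] n = 1) δ := by
  obtain ⟨δ, h0, h1, h2, h3, h4⟩ := lawL
  have hB : Dn (fun n => ∃ k : ℕ, H k n) δ := by
    refine Pool.Agent.H499R2.LT.Dn_iff (fun n _ => ?_) h3
    constructor
    · intro h
      classical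
      have : Ts n (Nat.find h) := ⟨Nat.find_spec h, fun i hi => Nat.find_min h hi⟩
      obtain ⟨k, hk, _⟩ := (Ts_iff n _).1 this
      exact ⟨k, hk⟩
    · rintro ⟨k, hk⟩; exact ⟨_, (Ts_of_H hk).1⟩
  exact ⟨δ, ⟨h0, h1, hB, fun m r hm x =>
    Pool.Agent.H499R2.LT.Dn_iff (fun n _ => (lvL_iff m r x n).symm) (h4 m r hm x)⟩, h2, h3⟩

/-- the integers with total stopping time at most themselves -/
theorem app_le {δ : ℝ} (h : DenL δ) : App (fun _ z => 0 < z ∧ ∃ l : ℕ, Ts z.toNat l ∧ l ≤ z.toNat) δ := by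
  apply App_of
  intro κ hκ
  have hlog : ∀ᶠ N : ℕ in atTop, (A1 + 1) * Real.log (N : ℝ) ≤ κ * N := by
    have h1 : (fun x : ℝ => Real.log x) =o[atTop] (fun x : ℝ => x) := Real.isLittleO_log_id_atTop
    have hA : 0 < A1 + 1 := by have := A1_pos; linarith
    have h2 := (h1.bound (show 0 < κ / (A1 + 1) by positivity))
    have h3 := tendsto_natCast_atTop_atTop.eventually h2
    filter_upwards [h3] with N hN
    rw [Real.norm_of_nonneg (Real.log_natCast_nonneg N), Real.norm_of_nonneg (Nat.cast_nonneg _),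
      div_mul_eq_mul_div, le_div_iff₀ hA] at hN
    linarith
  filter_upwards [upp_unif A1_pos.le c1_pos h.fin h.lawG (show A1 < A1 + 1 by linarith) κ hκ,
    fin_unif h.fin κ hκ, hlog] with N h1 h2 h3
  refine ⟨fun k o => valL k o ≤ (A1 + 1) * Real.log N, fun _ _ => True, ?_, fun m hm => ⟨h1 m hm, h2 m hm⟩⟩
  intro z hz hzκ
  rw [mem_Icc] at hz
  constructor
  · rintro ⟨h4, k, hk, h5⟩
    refine ⟨h4, k + odn k z.toNat, Ts_of_H hk, ?_⟩
    unfold valL at h5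
    have h6 : ((k + odn k z.toNat : ℕ) : ℝ) ≤ (z.toNat : ℝ) := by
      have h7 : ((z.toNat : ℕ) : ℝ) = (z : ℝ) := by
        have : ((z.toNat : ℕ) : ℤ) = z := Int.toNat_of_nonneg (by omega)
        exact_mod_cast this
      rw [h7]
      push_cast
      linarith
    exact_mod_cast h6
  · rintro ⟨h4, l, hl, _⟩
    obtain ⟨k, hk, _⟩ := (Ts_iff _ l).1 hl
    exact ⟨h4, k, hk, trivial⟩

end Pool.Agent.TH465.LN
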