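import Mathlib
import Pool.Agent.TH465.LN.Main

/-! Counting forms for natural numbers. -/

set_option autoImplicit false

namespace Pool.Agent.TH465.LN
open Finset Filter Topology Pool.Agent.TH204.CP Pool.Agent.TH465.HP Pool.Agent.TH465.PP

lemma filter_card_congr {α : Type*} (F : Finset α) (Q Q' : α → Prop) {i : DecidablePred Q} {i' : DecidablePred Q'}
    (h : ∀ z ∈ F, Q z ↔ Q' z) : (F.filter Q).card = (F.filter Q').card := by
  congr 1
  exact filter_congr h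

open Classical in
lemma FP_card (P : ℕ → Prop) (n : ℕ) :
    ({z : ℕ × ℕ | z ∈ FP n ∧ P (n - z.1 - z.2)}.ncard : ℝ) = TT3 (fun z => 0 < z ∧ P z.toNat) n := by
  rw [TT3_card]
  have h : {z : ℕ × ℕ | z ∈ FP n ∧ P (n - z.1 - z.2)} =
      (((FP n).filter (fun z => P (n - z.1 - z.2)) : Finset (ℕ × ℕ)) : Set (ℕ × ℕ)) := by
    ext z
    rw [mem_coe, mem_filter]; rfl
  rw [h, Set.ncard_coe_finset]
  congr 1
  refine filter_card_congr _ _ _ ?_
  intro z hz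
  have h1 : z.1 + z.2 < n := by
    unfold FP at hz
    exact (mem_filter.1 hz).2.2.2
  have h2 : (((n - z.1 - z.2 : ℕ) : ℤ)).toNat = n - z.1 - z.2 := Int.toNat_natCast _
  rw [h2]
  exact ⟨fun h => ⟨by omega, h⟩, fun h => h.2⟩

open Classical in
lemma FS_card (P : ℕ → Prop) (k N : ℕ) :
    ({p : ℕ | p ∈ FS k N ∧ P (p - k)}.ncard : ℝ) = QD (fun z => 0 < z ∧ P z.toNat) (k : ℤ) N := by
  rw [QD_card]
  have h : {p : ℕ | p ∈ FS k N ∧ P (p - k)} =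
      (((FS k N).filter (fun p => P (p - k)) : Finset ℕ) : Set ℕ) := by
    ext z
    rw [mem_coe, mem_filter]; rfl
  rw [h, Set.ncard_coe_finset]
  congr 1
  refine filter_card_congr _ _ _ ?_
  intro p hp
  have h1 : k < p := by
    unfold FS at hp
    exact (mem_Ioc.1 (mem_filter.1 hp).1).1
  have h2 : (((p - k : ℕ) : ℤ)).toNat = p - k := Int.toNat_natCast _
  rw [h2]
  exact ⟨fun h => ⟨by omega, h⟩, fun h => h.2⟩

open Classical in
lemma FO_card (P : ℕ → Prop) (n : ℕ) :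
    ({p : ℕ | p ∈ FO n ∧ P (n - p)}.ncard : ℝ) = QS (fun z => 0 < z ∧ P z.toNat) n n := by
  rw [QS_card]
  have h : {p : ℕ | p ∈ FO n ∧ P (n - p)} =
      (((FO n).filter (fun p => P (n - p)) : Finset ℕ) : Set ℕ) := by
    ext z
    rw [mem_coe, mem_filter]; rfl
  rw [h, Set.ncard_coe_finset]
  congr 1
  refine filter_card_congr _ _ _ ?_
  intro p hp
  have h1 : p < n := by
    unfold FO at hp
    exact mem_range.1 (mem_filter.1 hp).1
  have h2 : (((n - p : ℕ) : ℤ)).toNat = n - p := Int.toNat_natCast _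
  rw [h2]
  exact ⟨fun h => ⟨by omega, h⟩, fun h => h.2⟩

section

variable {P : ℕ → Prop} {d : ℝ}

theorem tern_nat (h : App (fun _ z => 0 < z ∧ P z.toNat) d) (ε : ℝ) (hε : 0 < ε) : ∀ᶠ n : ℕ in atTop,
    |({z : ℕ × ℕ | z ∈ FP n ∧ P (n - z.1 - z.2)}.ncard : ℝ) * Real.log n ^ 2 - d * (n ^ 2 / 2)| ≤ ε * n ^ 2 := by
  filter_upwards [h.tern ε hε] with n h1
  rw [FP_card]
  have e : d * ((n : ℝ) ^ 2 / 2) = d * n ^ 2 / 2 := by ring
  rw [e]
  exact h1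

theorem diff_nat (h : App (fun _ z => 0 < z ∧ P z.toNat) d) (C : ℕ) (ε : ℝ) (hε : 0 < ε) :
    ∀ᶠ N : ℕ in atTop, ∃ X : Finset ℕ, (X.card : ℝ) * Real.log N ^ C ≤ N ∧ ∀ k ∈ Icc 1 N, k ∉ X →
      |({p : ℕ | p ∈ FS k N ∧ P (p - k)}.ncard : ℝ) * Real.log N - d * N| ≤ ε * N := by
  filter_upwards [h.diff C ε hε] with N h1
  obtain ⟨X, _, h2, h3⟩ := h1
  refine ⟨X, h2, fun k hk hkX => ?_⟩
  rw [FS_card]
  exact h3 k hk hkX

theorem sum_nat (h : App (fun _ z => 0 < z ∧ P z.toNat) d) (C : ℕ) (ε : ℝ) (hε : 0 < ε) :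
    ∀ᶠ N : ℕ in atTop, ∃ X : Finset ℕ, (X.card : ℝ) * Real.log N ^ C ≤ N ∧ ∀ n ∈ Ioc N (2 * N), n ∉ X →
      |({p : ℕ | p ∈ FO n ∧ P (n - p)}.ncard : ℝ) * Real.log n - d * n| ≤ ε * n := by
  filter_upwards [h.sum C ε hε] with N h1
  obtain ⟨X, _, h2, h3⟩ := h1
  refine ⟨X, h2, fun n hn hnX => ?_⟩
  rw [FO_card]
  exact h3 n hn hnX

/-- complements -/
lemma ncard_not {α : Type*} (F : Finset α) (Q : α → Prop) :
    ({z | z ∈ F ∧ ¬ Q z}.ncard : ℝ) = F.card - ({z | z ∈ F ∧ Q z}.ncard : ℝ) := by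
  classical
  have h1 : {z | z ∈ F ∧ Q z} = ((F.filter Q : Finset α) : Set α) := by
    ext z
    rw [mem_coe, mem_filter]; rfl
  have h2 : {z | z ∈ F ∧ ¬ Q z} = ((F.filter (fun z => ¬ Q z) : Finset α) : Set α) := by
    ext z
    rw [mem_coe, mem_filter]; rfl
  rw [h1, h2, Set.ncard_coe_finset, Set.ncard_coe_finset]
  have h3 := card_filter_add_card_filter_not (s := F) Q
  have h4 : ((F.filter Q).card : ℝ) + (F.filter (fun z => ¬ Q z)).card = F.card := by exact_mod_cast h3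
  linarith

theorem tern_not (h : App (fun _ z => 0 < z ∧ P z.toNat) d) (ε : ℝ) (hε : 0 < ε) : ∀ᶠ n : ℕ in atTop,
    |({z : ℕ × ℕ | z ∈ FP n ∧ ¬ P (n - z.1 - z.2)}.ncard : ℝ) * Real.log n ^ 2 - (1 - d) * (n ^ 2 / 2)| ≤
      ε * n ^ 2 := by
  filter_upwards [tern_nat h (ε / 2) (by positivity), App_true.tern (ε / 2) (by positivity)] with n h1 h2
  rw [← FP_true] at h2
  rw [ncard_not (FP n) (fun z => P (n - z.1 - z.2))]
  rw [abs_le] at h1 h2 ⊢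
  constructor <;> nlinarith [h1.1, h1.2, h2.1, h2.2]

theorem diff_not (h : App (fun _ z => 0 < z ∧ P z.toNat) d) (C : ℕ) (ε : ℝ) (hε : 0 < ε) :
    ∀ᶠ N : ℕ in atTop, ∃ X : Finset ℕ, (X.card : ℝ) * Real.log N ^ C ≤ N ∧ ∀ k ∈ Icc 1 N, k ∉ X →
      |({p : ℕ | p ∈ FS k N ∧ ¬ P (p - k)}.ncard : ℝ) * Real.log N - (1 - d) * N| ≤ ε * N := by
  filter_upwards [diff_nat h (C + 1) (ε / 2) (by positivity), App_true.diff (C + 1) (ε / 2) (by positivity),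
    tlog.eventually_ge_atTop 2] with N h1 h2 h3
  obtain ⟨X, x1, x2⟩ := h1
  obtain ⟨X', _, x1', x2'⟩ := h2
  refine ⟨X ∪ X', union_small x1 x1' h3, fun k hk hkX => ?_⟩
  rw [mem_union, not_or] at hkX
  have g1 := x2 k hk hkX.1
  have g2 := x2' k hk hkX.2
  rw [← FS_true] at g2
  rw [ncard_not (FS k N) (fun p => P (p - k))]
  rw [abs_le] at g1 g2 ⊢
  constructor <;> nlinarith [g1.1, g1.2, g2.1, g2.2]

theorem sum_not (h : App (fun _ z => 0 < z ∧ P z.toNat) d) (C : ℕ) (ε : ℝ) (hε : 0 < ε) :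
    ∀ᶠ N : ℕ in atTop, ∃ X : Finset ℕ, (X.card : ℝ) * Real.log N ^ C ≤ N ∧ ∀ n ∈ Ioc N (2 * N), n ∉ X →
      |({p : ℕ | p ∈ FO n ∧ ¬ P (n - p)}.ncard : ℝ) * Real.log n - (1 - d) * n| ≤ ε * n := by
  filter_upwards [sum_nat h (C + 1) (ε / 2) (by positivity), App_true.sum (C + 1) (ε / 2) (by positivity),
    tlog.eventually_ge_atTop 2] with N h1 h2 h3
  obtain ⟨X, x1, x2⟩ := h1
  obtain ⟨X', _, x1', x2'⟩ := h2
  refine ⟨X ∪ X', union_small x1 x1' h3, fun n hn hnX => ?_⟩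
  rw [mem_union, not_or] at hnX
  have g1 := x2 n hn hnX.1
  have g2 := x2' n hn hnX.2
  rw [← FO_true] at g2
  rw [ncard_not (FO n) (fun p => P (n - p))]
  rw [abs_le] at g1 g2 ⊢
  constructor <;> nlinarith [g1.1, g1.2, g2.1, g2.2]

end

end Pool.Agent.TH465.LN
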